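import Pool.Agent.Helper9.LP.Num3

/-! Project (L+), MP_b5f63d_co: the numbers (`num`, `num_cor`). -/

set_option autoImplicit false

open Filter

namespace Pool.Agent.Helper9.LP

open Pool.Agent.Helper47.LB
open Pool.Agent.Helper85.LP

theorem num {C θ : ℝ} (hC : 0 < C) (hθ0 : 0 < θ) (hθ1 : θ < 1) : ∃ δ : ℝ, 0 < δ ∧ ∃ d₀ : ℕ,
    ∀ d : ℕ, d₀ ≤ d → ∀ t k : ℕ, 1 ≤ t → (t : ℝ) ≤ δ * d → (k : ℝ) ≤ 2 ^ (δ * d) →
      ∃ N : ℝ, 0 < N ∧ 1 ≤ N * VV d ∧ 4 * VV d ≤ 1 ∧ (1 + C * d * θ ^ d) ^ k ≤ 2 ∧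
        2 * (k : ℝ) * √(VV d) ≤ 1 / 2 ∧
        (∀ m : ℕ, 1 ≤ m → m ≤ t → ((t : ℝ) + 1) ^ 2 * 2 ^ t *
          (1 + C * d * θ ^ d) ^ (2 * t ^ 2) * (8 * N * VV d) ^ m * ((m : ℝ) + 1) ^ (2 * m) *
          DD d m ≤ 1) ∧
        (2 / √3) ^ d * max ((2 : ℝ) ^ ((0.095 : ℝ) * d / t))
          ((1 + (t : ℝ) / 40) ^ ((0.24 : ℝ) * d / t)) ≤ N := by
  obtain ⟨δ, hδ, d₀, hd₀, H⟩ := cond hC.le hθ0 hθ1
  refine ⟨δ, hδ, d₀, fun d hd t k ht htd hk => ?_⟩
  obtain ⟨h4, hk', hm⟩ := H d hd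
  obtain ⟨h5, h6⟩ := hk' k hk
  have hd4 : 4 ≤ d := hd₀.trans hd
  have hV := VV_pos hd4
  have hW := WW_pos d t
  refine ⟨(2 / √3) ^ d * WW d t, by positivity, ?_, h4, h5, h6, fun m hm1 hmt => ?_, le_rfl⟩
  · have h7 : (2 / √3) ^ d * WW d t * VV d = ((2 / √3) ^ d * VV d) * WW d t := by ring
    rw [h7]
    exact one_le_mul_of_one_le_of_one_le (one_le_pow_VV hd4) (one_le_WW d t)
  · have h7 : 8 * ((2 / √3) ^ d * WW d t) * VV d = 8 * ((2 / √3) ^ d * WW d t * VV d) := by ring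
    rw [h7]
    exact hm t htd m hm1 hmt

theorem log_ratio_real {x y : ℝ} (hx : 0 < x) (hxy : x ≤ y) :
    x * Real.log (1 + y) ≤ y * Real.log (1 + x) := by
  have hy : 0 < y := lt_of_lt_of_le hx hxy
  have h := strictConcaveOn_log_Ioi.concaveOn.2
    (Set.mem_Ioi.2 (one_pos : (0 : ℝ) < 1)) (Set.mem_Ioi.2 (show (0 : ℝ) < 1 + y by positivity))
    (show (0 : ℝ) ≤ 1 - x / y by rw [sub_nonneg, div_le_one hy]; exact hxy)
    (show (0 : ℝ) ≤ x / y by positivity) (by ring)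
  simp only [smul_eq_mul, Real.log_one, mul_zero, zero_add] at h
  have e1 : (1 - x / y) * 1 + x / y * (1 + y) = 1 + x := by
    field_simp
    ring
  rw [e1] at h
  have h2 := mul_le_mul_of_nonneg_left h hy.le
  refine le_trans (le_of_eq ?_) h2
  field_simp

theorem num_cor (C : ℝ) : ∃ δ : ℝ, 0 < δ ∧ ∃ d₀ : ℕ, ∀ d : ℕ, d₀ ≤ d → ∀ t : ℕ, 1 ≤ t →
    (t : ℝ) ≤ δ * d → (d : ℝ) ^ C ≤ (1 + (t : ℝ) / 40) ^ ((0.24 : ℝ) * d / t) := by
  set δ : ℝ := 0.12 / (|C| + 1) with hδ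
  have hδ0 : 0 < δ := by positivity
  have hl : Tendsto (fun d : ℕ => Real.log d) atTop atTop :=
    Real.tendsto_log_atTop.comp tendsto_natCast_atTop_atTop
  obtain ⟨d₀, hd₀⟩ := ((hl.eventually_ge_atTop (-2 * Real.log (δ / 40))).and
    ((hl.eventually_ge_atTop 0).and (eventually_ge_atTop 1))).exists_forall_of_atTop
  refine ⟨δ, hδ0, d₀, fun d hd t ht htd => ?_⟩
  obtain ⟨h1, h2, h3⟩ := hd₀ d hd
  have hd0 : (0 : ℝ) < d := by exact_mod_cast (by omega : 0 < d)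
  have ht0 : (0 : ℝ) < t := by exact_mod_cast (by omega : 0 < t)
  rw [Real.rpow_def_of_pos hd0, Real.rpow_def_of_pos (by positivity), Real.exp_le_exp]
  have h4 := log_ratio_real (show (0 : ℝ) < t / 40 by positivity)
    (show (t : ℝ) / 40 ≤ δ * d / 40 by linarith)
  have h5 : Real.log (δ / 40) + Real.log d ≤ Real.log (1 + δ * d / 40) := by
    rw [← Real.log_mul (by positivity) (by positivity)]
    apply Real.log_le_log (by positivity)
    have : δ / 40 * d = δ * d / 40 := by ring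
    linarith
  have h6 : 1 / 2 * Real.log d ≤ Real.log (1 + δ * d / 40) := by linarith
  -- `log (1 + t / 40) / t ≥ log (1 + δ d / 40) / (δ d)`
  have h7 : Real.log (1 + δ * d / 40) / (δ * d) ≤ Real.log (1 + t / 40) / t := by
    rw [div_le_div_iff₀ (by positivity) ht0]
    linarith
  have h8 : C ≤ 0.12 / δ := by
    have : 0.12 / δ = |C| + 1 := by
      rw [hδ]
      field_simp
    rw [this]
    have := le_abs_self C
    linarith
  calc Real.log d * C ≤ Real.log d * (0.12 / δ) := by gcongr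
    _ = 0.24 * d * ((1 / 2 * Real.log d) / (δ * d)) := by
        field_simp
        ring
    _ ≤ 0.24 * d * (Real.log (1 + δ * d / 40) / (δ * d)) := by gcongr
    _ ≤ 0.24 * d * (Real.log (1 + t / 40) / t) := by gcongr
    _ = Real.log (1 + t / 40) * (0.24 * d / t) := by ring

end Pool.Agent.Helper9.LP
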