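import Pool.Agent.Helper9.LP.Num2

/-! Project (L+), MP_b5f63d_co: the numerical part, the conditions. -/

set_option autoImplicit false

open Filter

namespace Pool.Agent.Helper9.LP

open Pool.Agent.Helper47.LB
open Pool.Agent.Helper85.LP

theorem VV_le {d : ℕ} (hd : 4 ≤ d) : VV d ≤ 2.18 * ((d : ℝ) ^ 1 * (√3 / 2) ^ d) := by
  have h := pow_VV_le hd
  have hd1 : (1 : ℝ) ≤ d := by exact_mod_cast (by omega : 1 ≤ d)
  have h1 : √(d : ℝ) ≤ d := by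
    rw [Real.sqrt_le_left (by linarith)]
    nlinarith
  have h0 : (0 : ℝ) < (√3 / 2) ^ d := by positivity
  have h2 : VV d = ((2 / √3) ^ d * VV d) * (√3 / 2) ^ d := by
    have : (2 / √3 : ℝ) ^ d * (√3 / 2) ^ d = 1 := by
      rw [← mul_pow]
      have : (2 / √3 : ℝ) * (√3 / 2) = 1 := by field_simp
      rw [this, one_pow]
    calc VV d = VV d * ((2 / √3 : ℝ) ^ d * (√3 / 2) ^ d) := by rw [this, mul_one]
      _ = _ := by ring
  rw [h2]
  calc ((2 / √3) ^ d * VV d) * (√3 / 2) ^ d ≤ (2.18 * √d) * (√3 / 2) ^ d := by gcongr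
    _ ≤ (2.18 * d) * (√3 / 2) ^ d := by gcongr
    _ = _ := by ring

theorem one_add_pow_le {r : ℝ} (hr : 0 ≤ r) {n : ℕ} (h : n * r ≤ Real.log 2) :
    (1 + r) ^ n ≤ 2 := by
  have h1 : 1 + r ≤ Real.exp r := by
    have := Real.add_one_le_exp r
    linarith
  calc (1 + r) ^ n ≤ Real.exp r ^ n := by gcongr
    _ = Real.exp (n * r) := by rw [← Real.exp_nat_mul]
    _ ≤ Real.exp (Real.log 2) := Real.exp_le_exp.2 h
    _ = 2 := Real.exp_log (by norm_num)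

/-- the choice of `δ` -/
theorem exists_delta {θ : ℝ} (hθ0 : 0 < θ) (hθ1 : θ < 1) :
    ∃ δ : ℝ, 0 < δ ∧ δ ≤ 1 / 10000 ∧ (2 : ℝ) ^ δ * θ < 1 ∧ ((2 : ℝ) ^ δ) ^ 2 * (√3 / 2) < 1 := by
  have hl2 : 0 < Real.log 2 := Real.log_pos (by norm_num)
  have hl2' := Real.log_two_lt_d9
  have hlθ : Real.log θ < 0 := Real.log_neg hθ0 hθ1
  set δ₁ : ℝ := -Real.log θ / (2 * Real.log 2) with hδ₁
  have h1 : 0 < δ₁ := by
    rw [hδ₁]
    apply div_pos <;> linarith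
  refine ⟨min (1 / 10000) δ₁, lt_min (by norm_num) h1, min_le_left _ _, ?_, ?_⟩
  · have h2 : (2 : ℝ) ^ (min (1 / 10000) δ₁) ≤ 2 ^ δ₁ :=
      Real.rpow_le_rpow_of_exponent_le (by norm_num) (min_le_right _ _)
    have h3 : (2 : ℝ) ^ δ₁ * θ < 1 := by
      have e : (2 : ℝ) ^ δ₁ * θ = Real.exp (Real.log 2 * δ₁ + Real.log θ) := by
        rw [Real.exp_add, Real.exp_log hθ0, Real.rpow_def_of_pos (by norm_num)]
      rw [e, Real.exp_lt_one_iff]
      have : Real.log 2 * δ₁ = -Real.log θ / 2 := by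
        rw [hδ₁]
        field_simp
      rw [this]
      linarith
    exact lt_of_le_of_lt (mul_le_mul_of_nonneg_right h2 hθ0.le) h3
  · have h2 : (2 : ℝ) ^ (min (1 / 10000) δ₁) ≤ 2 ^ (1 / 10000 : ℝ) :=
      Real.rpow_le_rpow_of_exponent_le (by norm_num) (min_le_left _ _)
    have h3 : (2 : ℝ) ^ (1 / 10000 : ℝ) ≤ 1.01 := by
      rw [Real.rpow_def_of_pos (by norm_num)]
      have h4 : (1.01 : ℝ)⁻¹ ≤ Real.exp (-(Real.log 2 * (1 / 10000))) := by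
        have := Real.add_one_le_exp (-(Real.log 2 * (1 / 10000)))
        refine le_trans ?_ this
        norm_num
        linarith
      rw [Real.exp_neg] at h4
      exact (inv_le_inv₀ (by norm_num) (Real.exp_pos _)).1 h4
    have h5 : √(3 : ℝ) < 1.74 := by
      rw [Real.sqrt_lt' (by norm_num)]
      norm_num
    calc ((2 : ℝ) ^ (min (1 / 10000) δ₁)) ^ 2 * (√3 / 2) ≤ 1.01 ^ 2 * (√3 / 2) := by
          have := h2.trans h3
          gcongr
      _ < 1.01 ^ 2 * (1.74 / 2) := by gcongr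
      _ < 1 := by norm_num

theorem rpow_nat (δ : ℝ) (d : ℕ) : (2 : ℝ) ^ (δ * d) = ((2 : ℝ) ^ δ) ^ d := by
  rw [Real.rpow_mul (by norm_num), Real.rpow_natCast]

/-- the main inequality, in logarithmic form -/
theorem main_ineq {c : ℝ} {r : ℝ} (hr : 0 ≤ r) {d t m : ℕ} (hd : 4 ≤ d) (hm : 1 ≤ m)
    (hmt : m ≤ t) (hc : Real.log 17.44 ≤ c) (h2 : ((2 * t ^ 2 : ℕ) : ℝ) * r ≤ Real.log 2)
    (hlog : 2 * Real.log (t + 1) + (t + 1) * Real.log 2 + m * (c + 1 / 2 * Real.log d) +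
      2 * m * Real.log (m + 1) ≤ 0.01 * LL m * d) :
    ((t : ℝ) + 1) ^ 2 * 2 ^ t * (1 + r) ^ (2 * t ^ 2) *
      (8 * ((2 / √3) ^ d * WW d t * VV d)) ^ m * ((m : ℝ) + 1) ^ (2 * m) * DD d m ≤ 1 := by
  have hd0 : (0 : ℝ) < d := by exact_mod_cast (by omega : 0 < d)
  have hG := one_add_pow_le hr h2
  have hW := WW_pos d t
  have hV := VV_pos hd
  have hN : 8 * ((2 / √3) ^ d * WW d t * VV d) ≤ Real.exp (c + 1 / 2 * Real.log d +
      Real.log (WW d t)) := by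
    rw [Real.exp_add, Real.exp_log hW, Real.exp_add]
    have e1 : Real.exp (1 / 2 * Real.log d) = √d := by
      rw [Real.sqrt_eq_rpow, Real.rpow_def_of_pos hd0]
      ring_nf
    have e2 : (17.44 : ℝ) ≤ Real.exp c := by
      rw [← Real.exp_log (show (0 : ℝ) < 17.44 by norm_num)]
      exact Real.exp_le_exp.2 hc
    rw [e1]
    calc 8 * ((2 / √3) ^ d * WW d t * VV d) = 8 * ((2 / √3) ^ d * VV d) * WW d t := by ring
      _ ≤ 8 * (2.18 * √d) * WW d t := by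
          have := pow_VV_le hd
          gcongr
      _ = 17.44 * √d * WW d t := by ring
      _ ≤ Real.exp c * √d * WW d t := by gcongr
  have hm' : (8 * ((2 / √3) ^ d * WW d t * VV d)) ^ m ≤
      Real.exp (m * (c + 1 / 2 * Real.log d) + m * Real.log (WW d t)) := by
    calc _ ≤ (Real.exp (c + 1 / 2 * Real.log d + Real.log (WW d t))) ^ m := by gcongr
      _ = _ := by rw [← Real.exp_nat_mul]; ring_nf
  have ht1 : ((t : ℝ) + 1) ^ 2 = Real.exp (2 * Real.log (t + 1)) := by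
    rw [two_mul, Real.exp_add, Real.exp_log (by positivity)]
    ring
  have ht2 : (2 : ℝ) ^ t = Real.exp (t * Real.log 2) := by
    rw [Real.exp_nat_mul, Real.exp_log (by norm_num)]
  have ht3 : ((m : ℝ) + 1) ^ (2 * m) = Real.exp (2 * m * Real.log (m + 1)) := by
    have : (2 * (m : ℝ)) * Real.log (m + 1) = ((2 * m : ℕ) : ℝ) * Real.log (m + 1) := by push_cast; ring
    rw [this, Real.exp_nat_mul, Real.exp_log (by positivity)]
  have ht4 : (2 : ℝ) = Real.exp (Real.log 2) := (Real.exp_log (by norm_num)).symm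
  have hWl := log_WW d hm hmt
  rw [DD_eq d m hm]
  calc ((t : ℝ) + 1) ^ 2 * 2 ^ t * (1 + r) ^ (2 * t ^ 2) *
      (8 * ((2 / √3) ^ d * WW d t * VV d)) ^ m * ((m : ℝ) + 1) ^ (2 * m) *
        Real.exp (-(LL m * d))
      ≤ ((t : ℝ) + 1) ^ 2 * 2 ^ t * 2 *
      Real.exp (m * (c + 1 / 2 * Real.log d) + m * Real.log (WW d t)) *
        ((m : ℝ) + 1) ^ (2 * m) * Real.exp (-(LL m * d)) := by gcongr
    _ = Real.exp (2 * Real.log (t + 1)) * Real.exp (t * Real.log 2) * Real.exp (Real.log 2) *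
      Real.exp (m * (c + 1 / 2 * Real.log d) + m * Real.log (WW d t)) *
        Real.exp (2 * m * Real.log (m + 1)) * Real.exp (-(LL m * d)) := by
        rw [ht1, ht2, ht3, Real.exp_log (show (0 : ℝ) < 2 by norm_num)]
    _ = Real.exp (2 * Real.log (t + 1) + t * Real.log 2 + Real.log 2 +
      (m * (c + 1 / 2 * Real.log d) + m * Real.log (WW d t)) +
        2 * m * Real.log (m + 1) + -(LL m * d)) := by
        simp only [Real.exp_add]
    _ ≤ 1 := by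
        rw [Real.exp_le_one_iff]
        linarith

theorem cond {C θ : ℝ} (hC : 0 ≤ C) (hθ0 : 0 < θ) (hθ1 : θ < 1) :
    ∃ δ : ℝ, 0 < δ ∧ ∃ d₀ : ℕ, 4 ≤ d₀ ∧ ∀ d : ℕ, d₀ ≤ d → 4 * VV d ≤ 1 ∧
      (∀ k : ℕ, (k : ℝ) ≤ (2 : ℝ) ^ (δ * d) →
        (1 + C * d * θ ^ d) ^ k ≤ 2 ∧ 2 * (k : ℝ) * √(VV d) ≤ 1 / 2) ∧
      ∀ t : ℕ, (t : ℝ) ≤ δ * d → ∀ m : ℕ, 1 ≤ m → m ≤ t →
        ((t : ℝ) + 1) ^ 2 * 2 ^ t * (1 + C * d * θ ^ d) ^ (2 * t ^ 2) *
          (8 * ((2 / √3) ^ d * WW d t * VV d)) ^ m * ((m : ℝ) + 1) ^ (2 * m) * DD d m ≤ 1 := by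
  obtain ⟨δ, hδ0, hδ1, hδ2, hδ3⟩ := exists_delta hθ0 hθ1
  have hl2 : 0 < Real.log 2 := Real.log_pos (by norm_num)
  obtain ⟨d₁, hd₁⟩ := log_main (Real.log 17.44)
  have hs3 : √(3 : ℝ) / 2 < 1 := by
    rw [div_lt_one (by norm_num), Real.sqrt_lt' (by norm_num)]
    norm_num
  set a : ℝ := (2 : ℝ) ^ δ with ha
  have ha0 : 0 < a := by positivity
  obtain ⟨d₂, hd₂⟩ := ((((ev_small (by positivity : (0 : ℝ) ≤ a * θ) hδ2 C 1 hl2).and
    (ev_small hθ0.le hθ1 (2 * C) 3 hl2)).and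
    (ev_small (by positivity : (0 : ℝ) ≤ a ^ 2 * (√3 / 2)) hδ3 2.18 1
      (show (0 : ℝ) < 1 / 16 by norm_num))).and
    (ev_small (by positivity : (0 : ℝ) ≤ √3 / 2) hs3 2.18 1
      (show (0 : ℝ) < 1 / 4 by norm_num))).exists_forall_of_atTop
  refine ⟨δ, hδ0, max 4 (max d₁ d₂), le_max_left _ _, fun d hd => ?_⟩
  have hd4 : 4 ≤ d := le_trans (le_max_left _ _) hd
  have hdd1 : d₁ ≤ d := le_trans (le_trans (le_max_left _ _) (le_max_right _ _)) hd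
  have hdd2 : d₂ ≤ d := le_trans (le_trans (le_max_right _ _) (le_max_right _ _)) hd
  obtain ⟨⟨⟨h1, h2⟩, h3⟩, h4⟩ := hd₂ d hdd2
  have hd0 : (0 : ℝ) < d := by exact_mod_cast (by omega : 0 < d)
  have hVle := VV_le hd4
  have hV := VV_pos hd4
  set r : ℝ := C * d * θ ^ d with hr
  have hr0 : 0 ≤ r := by positivity
  refine ⟨by linarith, fun k hk => ⟨?_, ?_⟩, fun t ht m hm hmt => ?_⟩
  · apply one_add_pow_le hr0
    rw [rpow_nat, ← ha] at hk
    calc (k : ℝ) * r ≤ a ^ d * r := by gcongr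
      _ = C * ((d : ℝ) ^ 1 * (a * θ) ^ d) := by rw [hr, mul_pow]; ring
      _ ≤ Real.log 2 := h1
  · rw [rpow_nat, ← ha] at hk
    have h5 : (2 * k * √(VV d)) ^ 2 ≤ (1 / 2) ^ 2 := by
      rw [mul_pow, Real.sq_sqrt hV.le]
      calc (2 * (k : ℝ)) ^ 2 * VV d ≤
            (2 * a ^ d) ^ 2 * (2.18 * ((d : ℝ) ^ 1 * (√3 / 2) ^ d)) := by gcongr
        _ = 4 * (2.18 * ((d : ℝ) ^ 1 * (a ^ 2 * (√3 / 2)) ^ d)) := by
            rw [mul_pow (a ^ 2)]
            ring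
        _ ≤ 4 * (1 / 16) := by gcongr
        _ = (1 / 2) ^ 2 := by norm_num
    exact le_of_sq_le_sq h5 (by norm_num)
  · have htd : (t : ℝ) ≤ 1 / 10000 * d := ht.trans (by gcongr)
    have htd' : (t : ℝ) ≤ d := by linarith
    apply main_ineq hr0 hd4 hm hmt le_rfl _ (hd₁ d hdd1 t m hm hmt htd)
    push_cast
    calc 2 * (t : ℝ) ^ 2 * r ≤ 2 * (d : ℝ) ^ 2 * r := by gcongr
      _ = 2 * C * ((d : ℝ) ^ 3 * θ ^ d) := by rw [hr]; ring
      _ ≤ Real.log 2 := h2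

end Pool.Agent.Helper9.LP
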