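import Mathlib

/-! Project (L+), MP_b5f63d_co: the numerical part. -/

set_option autoImplicit false

open Filter

namespace Pool.Agent.Helper9.LP

/-- the exponent of the kernel bound -/
noncomputable def LL (m : ℕ) : ℝ := max (0.096 * Real.log 2) (0.249 * Real.log (1 + m / 40))

theorem LL_ge (m : ℕ) : (0.0665 : ℝ) ≤ LL m := by
  refine le_trans ?_ (le_max_left _ _)
  have := Real.log_two_gt_d9
  nlinarith

theorem ev_sqrt (c : ℝ) : ∀ᶠ d : ℕ in atTop, c + 2 + 1.5 * Real.log d ≤ 0.0003 * Real.sqrt d := by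
  have h1 : Tendsto (fun d : ℕ => ((d : ℝ)) ^ (1 / 4 : ℝ)) atTop atTop :=
    (tendsto_rpow_atTop (by norm_num)).comp tendsto_natCast_atTop_atTop
  filter_upwards [h1.eventually_ge_atTop ((|c| + 8) / 0.0003), h1.eventually_ge_atTop 1,
    eventually_ge_atTop 1] with d h2 h3 h4
  have hd : (0 : ℝ) < d := by exact_mod_cast h4
  set y : ℝ := (d : ℝ) ^ (1 / 4 : ℝ) with hy
  have e1 : Real.sqrt d = y ^ 2 := by
    rw [hy, ← Real.rpow_natCast, ← Real.rpow_mul hd.le, Real.sqrt_eq_rpow]
    norm_num
  have h5 : Real.log d ≤ 4 * y := by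
    have := Real.log_le_rpow_div hd.le (show (0 : ℝ) < 1 / 4 by norm_num)
    rw [← hy] at this
    linarith
  have h6 := le_abs_self c
  rw [e1]
  have h7 : |c| + 8 ≤ 0.0003 * y := by
    rw [div_le_iff₀ (by norm_num)] at h2
    linarith
  nlinarith [abs_nonneg c]

theorem log_main (c : ℝ) : ∃ d₀ : ℕ, ∀ d : ℕ, d₀ ≤ d → ∀ t m : ℕ, 1 ≤ m → m ≤ t →
    (t : ℝ) ≤ 1 / 10000 * d →
    2 * Real.log (t + 1) + (t + 1) * Real.log 2 + m * (c + 1 / 2 * Real.log d) +
      2 * m * Real.log (m + 1) ≤ 0.01 * LL m * d := by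
  have h1 : Tendsto (fun d : ℕ => Real.log d) atTop atTop :=
    Real.tendsto_log_atTop.comp tendsto_natCast_atTop_atTop
  obtain ⟨d₀, hd₀⟩ := ((((ev_sqrt c).and (h1.eventually_ge_atTop 50)).and
    (h1.eventually_ge_atTop (10 * |c|))).and (eventually_ge_atTop 100000)).exists_forall_of_atTop
  refine ⟨d₀, fun d hd t m hm hmt htd => ?_⟩
  obtain ⟨⟨⟨h2, h3⟩, h4⟩, h5⟩ := hd₀ d hd
  have hd5 : (100000 : ℝ) ≤ d := by exact_mod_cast h5
  have hd0 : (0 : ℝ) < d := by linarith
  have hm1 : (1 : ℝ) ≤ m := by exact_mod_cast hm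
  have hmt' : (m : ℝ) ≤ t := by exact_mod_cast hmt
  have hL := LL_ge m
  -- the part with `t`
  have hA : 2 * Real.log (t + 1) + (t + 1) * Real.log 2 ≤ 0.005 * LL m * d := by
    have a1 : Real.log ((t : ℝ) + 1) ≤ t := by
      have := Real.log_le_sub_one_of_pos (show (0 : ℝ) < (t : ℝ) + 1 by positivity)
      linarith
    have a2 := Real.log_two_lt_d9
    have a3 : ((t : ℝ) + 1) * Real.log 2 ≤ ((t : ℝ) + 1) * 0.7 := by
      gcongr
      linarith
    nlinarith
  -- the part with `m`
  have hB : m * (c + 1 / 2 * Real.log d) + 2 * m * Real.log (m + 1) ≤ 0.005 * LL m * d := by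
    rcases le_or_gt (m : ℝ) (Real.sqrt d) with hc | hc
    · have b0 : 0 ≤ Real.sqrt d := Real.sqrt_nonneg _
      have b1 : Real.log ((m : ℝ) + 1) ≤ 1 + 1 / 2 * Real.log d := by
        have b2 : (m : ℝ) + 1 ≤ 2 * Real.sqrt d := by
          have : (1 : ℝ) ≤ Real.sqrt d := by
            rw [Real.one_le_sqrt]
            linarith
          linarith
        have b3 : Real.log ((m : ℝ) + 1) ≤ Real.log (2 * Real.sqrt d) :=
          Real.log_le_log (by positivity) b2
        rw [Real.log_mul (by norm_num) (by positivity), Real.log_sqrt hd0.le] at b3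
        have := Real.log_two_lt_d9
        linarith
      have b4 : m * (c + 1 / 2 * Real.log d) + 2 * m * Real.log (m + 1) ≤
          m * (c + 2 + 1.5 * Real.log d) := by
        have := mul_le_mul_of_nonneg_left b1 (show (0 : ℝ) ≤ 2 * m by positivity)
        nlinarith
      have b5 : m * (c + 2 + 1.5 * Real.log d) ≤ Real.sqrt d * (0.0003 * Real.sqrt d) := by
        have b6 : 0 ≤ c + 2 + 1.5 * Real.log d := by
          have := neg_abs_le c
          linarith
        exact mul_le_mul hc h2 b6 b0
      have b7 : Real.sqrt d * (0.0003 * Real.sqrt d) = 0.0003 * d := by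
        rw [mul_left_comm, Real.mul_self_sqrt hd0.le]
      have b8 : 0.0003 * (d : ℝ) ≤ 0.005 * LL m * d := by nlinarith
      linarith
    · have c1 : 0.4 * Real.log d ≤ Real.log (1 + m / 40) := by
        have c2 : Real.sqrt d / 40 ≤ 1 + m / 40 := by linarith
        have c3 : Real.log (Real.sqrt d / 40) ≤ Real.log (1 + m / 40) :=
          Real.log_le_log (by positivity) c2
        rw [Real.log_div (by positivity) (by norm_num), Real.log_sqrt hd0.le] at c3
        have c4 : Real.log 40 ≤ 5 := by
          have c5 : Real.log 40 ≤ Real.log (2 ^ (6 : ℕ)) := Real.log_le_log (by norm_num) (by norm_num)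
          rw [Real.log_pow] at c5
          have := Real.log_two_lt_d9
          push_cast at c5
          linarith
        linarith
      have c6 : 0.0996 * Real.log d ≤ LL m := by
        refine le_trans ?_ (le_max_right _ _)
        linarith
      have c7 : Real.log ((m : ℝ) + 1) ≤ Real.log d := by
        apply Real.log_le_log (by positivity)
        linarith
      have c8 : m * (c + 1 / 2 * Real.log d) + 2 * m * Real.log (m + 1) ≤
          m * (2.6 * Real.log d) := by
        have c9 := mul_le_mul_of_nonneg_left c7 (show (0 : ℝ) ≤ 2 * m by positivity)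
        have c10 := le_abs_self c
        have c11 : (m : ℝ) * c ≤ m * (0.1 * Real.log d) := by
          gcongr
          linarith
        nlinarith
      have c12 : m * (2.6 * Real.log d) ≤ (1 / 10000 * d) * (2.6 * Real.log d) := by
        have : 0 ≤ Real.log d := by linarith
        gcongr
        linarith
      have c13 : (1 / 10000 * d) * (2.6 * Real.log d) ≤ 0.005 * LL m * d := by
        have := mul_le_mul_of_nonneg_right c6 hd0.le
        nlinarith
      linarith
  linarith

end Pool.Agent.Helper9.LP
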