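import Pool.Agent.Helper47.LB.Num3
import Pool.Agent.Helper85.LP.Defs
import Pool.Agent.Helper9.LP.Num

/-! Project (L+), MP_b5f63d_co: the numerical part, second half. -/

set_option autoImplicit false

open Filter

namespace Pool.Agent.Helper9.LP

open Pool.Agent.Helper47.LB
open Pool.Agent.Helper85.LP

/-- the gain over `(2/√3)^d` -/
noncomputable def WW (d t : ℕ) : ℝ :=
  max ((2 : ℝ) ^ ((0.095 : ℝ) * d / t)) ((1 + (t : ℝ) / 40) ^ ((0.24 : ℝ) * d / t))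

theorem one_le_WW (d t : ℕ) : 1 ≤ WW d t :=
  le_trans (Real.one_le_rpow (by norm_num) (by positivity)) (le_max_left _ _)

theorem WW_pos (d t : ℕ) : 0 < WW d t := lt_of_lt_of_le one_pos (one_le_WW d t)

theorem DD_eq (d m : ℕ) (hm : 1 ≤ m) : DD d m = Real.exp (-(LL m * d)) := by
  have hd : (0 : ℝ) ≤ d := Nat.cast_nonneg d
  have hm0 : m ≠ 0 := by omega
  rw [DD, if_neg hm0, Real.rpow_def_of_pos (by norm_num), Real.rpow_def_of_pos (by positivity)]
  rw [LL, ← (Real.exp_monotone).map_min]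
  congr 1
  rw [max_mul_of_nonneg _ _ hd, ← min_neg_neg]
  congr 1 <;> ring

/-- concavity of the logarithm -/
theorem log_ratio {m t : ℕ} (hm : 1 ≤ m) (hmt : m ≤ t) :
    (m : ℝ) * Real.log (1 + t / 40) ≤ t * Real.log (1 + m / 40) := by
  have ht0 : (0 : ℝ) < t := by exact_mod_cast (by omega : 0 < t)
  have hmt' : (m : ℝ) ≤ t := by exact_mod_cast hmt
  have hm0 : (0 : ℝ) ≤ m := Nat.cast_nonneg m
  have h := strictConcaveOn_log_Ioi.concaveOn.2
    (Set.mem_Ioi.2 (one_pos : (0 : ℝ) < 1)) (Set.mem_Ioi.2 (show (0 : ℝ) < 1 + t / 40 by positivity))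
    (show (0 : ℝ) ≤ 1 - m / t by rw [sub_nonneg, div_le_one ht0]; exact hmt')
    (show (0 : ℝ) ≤ m / t by positivity) (by ring)
  simp only [smul_eq_mul, Real.log_one, mul_zero, zero_add] at h
  have e1 : (1 - (m : ℝ) / t) * 1 + m / t * (1 + t / 40) = 1 + m / 40 := by
    field_simp
    ring
  rw [e1] at h
  have h2 := mul_le_mul_of_nonneg_left h ht0.le
  refine le_trans (le_of_eq ?_) h2
  field_simp

theorem log_WW (d : ℕ) {m t : ℕ} (hm : 1 ≤ m) (hmt : m ≤ t) :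
    m * Real.log (WW d t) ≤ 0.99 * LL m * d := by
  have ht0 : (0 : ℝ) < t := by exact_mod_cast (by omega : 0 < t)
  have hm0 : (0 : ℝ) < m := by exact_mod_cast (by omega : 0 < m)
  have hd : (0 : ℝ) ≤ d := Nat.cast_nonneg d
  have hmt' : (m : ℝ) ≤ t := by exact_mod_cast hmt
  have hl2 : 0 ≤ Real.log 2 := Real.log_nonneg (by norm_num)
  have hlm : 0 ≤ Real.log (1 + (m : ℝ) / 40) := Real.log_nonneg (by
    have : 0 ≤ (m : ℝ) / 40 := by positivity
    linarith)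
  have hlt : 0 ≤ Real.log (1 + (t : ℝ) / 40) := Real.log_nonneg (by
    have : 0 ≤ (t : ℝ) / 40 := by positivity
    linarith)
  rcases le_total ((2 : ℝ) ^ ((0.095 : ℝ) * d / t))
    ((1 + (t : ℝ) / 40) ^ ((0.24 : ℝ) * d / t)) with h | h
  · rw [WW, max_eq_right h, Real.log_rpow (by positivity)]
    have h1 := log_ratio hm hmt
    have h2 : (m : ℝ) * (0.24 * d / t * Real.log (1 + t / 40)) =
        0.24 * d / t * (m * Real.log (1 + t / 40)) := by ring
    rw [h2]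
    calc 0.24 * d / t * (m * Real.log (1 + t / 40))
        ≤ 0.24 * d / t * (t * Real.log (1 + m / 40)) := by gcongr
      _ = 0.24 * Real.log (1 + m / 40) * d := by field_simp
      _ ≤ 0.99 * (0.249 * Real.log (1 + m / 40)) * d := by
          apply mul_le_mul_of_nonneg_right _ hd
          nlinarith
      _ ≤ 0.99 * LL m * d := by
          have : 0.249 * Real.log (1 + (m : ℝ) / 40) ≤ LL m := le_max_right _ _
          gcongr
  · rw [WW, max_eq_left h, Real.log_rpow (by norm_num)]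
    have h2 : (m : ℝ) * (0.095 * d / t * Real.log 2) =
        0.095 * Real.log 2 * d * (m / t) := by ring
    rw [h2]
    calc 0.095 * Real.log 2 * d * (m / t) ≤ 0.095 * Real.log 2 * d * 1 := by
          have : (m : ℝ) / t ≤ 1 := by rw [div_le_one ht0]; exact hmt'
          gcongr
      _ ≤ 0.99 * (0.096 * Real.log 2) * d := by
          rw [mul_one]
          apply mul_le_mul_of_nonneg_right _ hd
          nlinarith
      _ ≤ 0.99 * LL m * d := by
          have : 0.096 * Real.log 2 ≤ LL m := le_max_left _ _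
          gcongr

theorem sqrt34 : √(3 / 4 : ℝ) = √3 / 2 := by
  rw [Real.sqrt_div (by norm_num)]
  congr 1
  rw [show (4 : ℝ) = 2 ^ 2 by norm_num, Real.sqrt_sq (by norm_num)]

/-- `(2/√3)^d * VV d` -/
theorem pow_VV {d : ℕ} (hd : 4 ≤ d) :
    (2 / √3) ^ d * VV d = (2 / √3) ^ 3 * √(2 * ((d - 3 : ℕ) : ℝ)) := by
  obtain ⟨e, rfl⟩ : ∃ e, d = e + 3 := ⟨d - 3, by omega⟩
  have h3 : √(3 : ℝ) ≠ 0 := by positivity
  rw [VV, sqrt34, Nat.add_sub_cancel, pow_add]
  have h : (2 / √3 : ℝ) ^ e * (√3 / 2) ^ e = 1 := by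
    rw [← mul_pow]
    have : (2 / √3 : ℝ) * (√3 / 2) = 1 := by field_simp
    rw [this, one_pow]
  calc (2 / √3 : ℝ) ^ e * (2 / √3) ^ 3 * (√(2 * (e : ℝ)) * (√3 / 2) ^ e)
      = ((2 / √3 : ℝ) ^ e * (√3 / 2) ^ e) * ((2 / √3) ^ 3 * √(2 * (e : ℝ))) := by ring
    _ = _ := by rw [h, one_mul]

theorem cube_bd : (1 : ℝ) ≤ (2 / √3) ^ 3 ∧ (2 / √3 : ℝ) ^ 3 ≤ 1.54 := by
  have h3 : (1.732 : ℝ) ≤ √3 := by
    apply Real.le_sqrt_of_sq_le
    norm_num
  have h0 : (0 : ℝ) < √3 := by positivity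
  have hle : √(3 : ℝ) ≤ 2 := by
    rw [Real.sqrt_le_left (by norm_num)]
    norm_num
  constructor
  · apply one_le_pow₀
    rw [one_le_div h0]
    exact hle
  · have : (2 / √3 : ℝ) ≤ 2 / 1.732 := by gcongr
    calc (2 / √3 : ℝ) ^ 3 ≤ (2 / 1.732) ^ 3 := by gcongr
      _ ≤ 1.54 := by norm_num

theorem pow_VV_le {d : ℕ} (hd : 4 ≤ d) : (2 / √3) ^ d * VV d ≤ 2.18 * √d := by
  rw [pow_VV hd]
  have h1 : √(2 * ((d - 3 : ℕ) : ℝ)) ≤ √2 * √d := by
    rw [← Real.sqrt_mul (by norm_num)]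
    apply Real.sqrt_le_sqrt
    have : ((d - 3 : ℕ) : ℝ) ≤ d := by exact_mod_cast Nat.sub_le _ _
    linarith
  have h2 : √(2 : ℝ) ≤ 1.4143 := by
    rw [Real.sqrt_le_left (by norm_num)]
    norm_num
  calc (2 / √3 : ℝ) ^ 3 * √(2 * ((d - 3 : ℕ) : ℝ)) ≤ 1.54 * (1.4143 * √d) := by
        apply mul_le_mul cube_bd.2 (h1.trans ?_) (Real.sqrt_nonneg _) (by norm_num)
        gcongr
    _ ≤ 2.18 * √d := by nlinarith [Real.sqrt_nonneg (d : ℝ)]

theorem one_le_pow_VV {d : ℕ} (hd : 4 ≤ d) : 1 ≤ (2 / √3) ^ d * VV d := by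
  rw [pow_VV hd]
  apply one_le_mul_of_one_le_of_one_le cube_bd.1
  rw [Real.one_le_sqrt]
  have : (1 : ℝ) ≤ ((d - 3 : ℕ) : ℝ) := by exact_mod_cast (by omega : 1 ≤ d - 3)
  linarith

/-- polynomial times decaying exponential -/
theorem ev_small {q : ℝ} (hq0 : 0 ≤ q) (hq1 : q < 1) (A : ℝ) (j : ℕ) {ε : ℝ} (hε : 0 < ε) :
    ∀ᶠ d : ℕ in atTop, A * ((d : ℝ) ^ j * q ^ d) ≤ ε := by
  have ht := (tendsto_pow_const_mul_const_pow_of_abs_lt_one j
    (show |q| < 1 by rw [abs_of_nonneg hq0]; exact hq1)).const_mul A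
  rw [mul_zero] at ht
  exact ht.eventually_le_const hε

end Pool.Agent.Helper9.LP
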