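import Mathlib

/-! Project (L+), MP_b5f63d_co: sums over triples of subsets. -/

set_option autoImplicit false

open Finset

namespace Pool.Agent.Helper9.LP

variable {X : Type} [DecidableEq X]

/-- a sum over triples of subsets of `S` with a given union, extended to the subsets of `I` -/
theorem extend_triple {S I : Finset X} (hS : S ⊆ I) (c : Finset X → Finset X → Finset X → Prop)
    [∀ Q J J', Decidable (c Q J J')] (K : Finset X → Finset X → Finset X → ℝ) :
    (∑ Q ∈ S.powerset, ∑ J ∈ S.powerset, ∑ J' ∈ S.powerset,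
      if Q ∪ (J ∪ J') = S ∧ c Q J J' then K Q J J' else 0) =
    ∑ Q ∈ I.powerset, ∑ J ∈ I.powerset, ∑ J' ∈ I.powerset,
      if Q ∪ (J ∪ J') = S ∧ c Q J J' then K Q J J' else 0 := by
  have hsub := powerset_mono.2 hS
  rw [← sum_subset hsub]
  · refine sum_congr rfl fun Q _ => ?_
    rw [← sum_subset hsub]
    · refine sum_congr rfl fun J _ => ?_
      rw [← sum_subset hsub]
      intro J' _ hJ'
      rw [if_neg]
      rintro ⟨h, -⟩
      exact hJ' (mem_powerset.2 (h ▸ subset_union_right.trans subset_union_right))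
    · intro J _ hJ
      apply sum_eq_zero
      intro J' _
      rw [if_neg]
      rintro ⟨h, -⟩
      exact hJ (mem_powerset.2 (h ▸ subset_union_left.trans subset_union_right))
  · intro Q _ hQ
    apply sum_eq_zero
    intro J _
    apply sum_eq_zero
    intro J' _
    rw [if_neg]
    rintro ⟨h, -⟩
    exact hQ (mem_powerset.2 (h ▸ subset_union_left))

/-- summing over all unions -/
theorem sum_triple (I : Finset X) (c : Finset X → Finset X → Finset X → Prop)
    [∀ Q J J', Decidable (c Q J J')] (K : Finset X → Finset X → Finset X → ℝ) :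
    (∑ S ∈ I.powerset, ∑ Q ∈ S.powerset, ∑ J ∈ S.powerset, ∑ J' ∈ S.powerset,
      if Q ∪ (J ∪ J') = S ∧ c Q J J' then K Q J J' else 0) =
    ∑ Q ∈ I.powerset, ∑ J ∈ I.powerset, ∑ J' ∈ I.powerset,
      if c Q J J' then K Q J J' else 0 := by
  rw [sum_congr rfl fun S hS => extend_triple (mem_powerset.1 hS) c K, sum_comm]
  refine sum_congr rfl fun Q hQ => ?_
  rw [sum_comm]
  refine sum_congr rfl fun J hJ => ?_
  rw [sum_comm]
  refine sum_congr rfl fun J' hJ' => ?_
  rw [mem_powerset] at hQ hJ hJ'
  by_cases hc : c Q J J'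
  · simp only [hc, and_true]
    rw [sum_ite_eq, if_pos (mem_powerset.2 (union_subset hQ (union_subset hJ hJ')))]
    rfl
  · simp only [hc, and_false, if_false]
    exact sum_const_zero

end Pool.Agent.Helper9.LP
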