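import Pool.Agent.Helper85.LP.Defs
import Pool.Agent.Helper9.LP.Pre

/-! Project (L+), MP_b5f63d_co: soundness of the mixed hierarchy. -/

set_option autoImplicit false

open Finset
open scoped RealInnerProductSpace

namespace Pool.Agent.Helper9.LP

open Pool.Agent.Helper47.KP (Sph EE)
open Pool.Agent.Helper47.LB
open Pool.Agent.Helper85.LP

section

variable {X : Type} [DecidableEq X]

theorem opM_eq (k t : ℕ) (F : Finset X → Finset X → Finset X → ℝ) (S : Finset X) :
    opM k t F S = ∑ Q ∈ S.powerset, ∑ J ∈ S.powerset, ∑ J' ∈ S.powerset,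
      if Q ∪ (J ∪ J') = S ∧ (Disjoint Q (J ∪ J') ∧ Q.card ≤ k ∧ J.card ≤ t ∧ J'.card ≤ t)
        then F Q J J' else 0 := by
  unfold opM
  refine sum_congr rfl fun Q hQ => sum_congr rfl fun J _ => sum_congr rfl fun J' _ => ?_
  rw [mem_powerset] at hQ
  have h : J ∪ J' = S \ Q ↔ Q ∪ (J ∪ J') = S ∧ Disjoint Q (J ∪ J') := by
    constructor
    · intro h
      rw [h]
      exact ⟨union_sdiff_of_subset hQ, disjoint_sdiff⟩
    · rintro ⟨h, h'⟩
      rw [← h, union_sdiff_left, sdiff_eq_self_of_disjoint h'.symm]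
  congr 1
  rw [h]
  apply propext
  tauto

/-- summing `opM k t F` over the subsets of `I` -/
theorem sum_opM (k t : ℕ) (F : Finset X → Finset X → Finset X → ℝ) (I : Finset X) :
    ∑ S ∈ I.powerset, opM k t F S =
      ∑ Q ∈ I.powerset with Q.card ≤ k,
        ∑ J ∈ I.powerset with (J.card ≤ t ∧ Disjoint Q J),
          ∑ J' ∈ I.powerset with (J'.card ≤ t ∧ Disjoint Q J'), F Q J J' := by
  rw [sum_congr rfl fun S _ => opM_eq k t F S, sum_triple I, sum_filter]
  refine sum_congr rfl fun Q _ => ?_
  by_cases hk : Q.card ≤ k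
  · rw [if_pos hk, sum_filter]
    refine sum_congr rfl fun J _ => ?_
    by_cases hJ : J.card ≤ t ∧ Disjoint Q J
    · rw [if_pos hJ, sum_filter]
      refine sum_congr rfl fun J' _ => ?_
      congr 1
      rw [disjoint_union_right]
      apply propext
      constructor
      · rintro ⟨⟨-, h⟩, -, -, h'⟩
        exact ⟨h', h⟩
      · rintro ⟨h, h'⟩
        exact ⟨⟨hJ.2, h'⟩, hk, hJ.1, h⟩
    · rw [if_neg hJ]
      refine sum_eq_zero fun J' _ => if_neg ?_
      rw [disjoint_union_right]
      rintro ⟨⟨h, -⟩, -, h', -⟩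
      exact hJ ⟨h', h⟩
  · rw [if_neg hk]
    refine sum_eq_zero fun J _ => sum_eq_zero fun J' _ => if_neg ?_
    rintro ⟨-, h, -⟩
    exact hk h

end

open Classical in
/-- Every feasible solution of the mixed hierarchy bounds the size of every separated set. -/
theorem feasible_boundM {d k t : ℕ} (hkt : 1 ≤ k + 2 * t)
    {F : Finset (Sph d) → Finset (Sph d) → Finset (Sph d) → ℝ}
    (hf : MFeas d k t F) {I : Finset (Sph d)} (hI : Separated I) : (I.card : ℝ) ≤ F ∅ ∅ ∅ := by
  -- positivity
  have h1 : 0 ≤ ∑ S ∈ I.powerset, opM k t F S := by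
    rw [sum_opM]
    refine sum_nonneg fun Q hQ => ?_
    rw [mem_filter, mem_powerset] at hQ
    set P := I.powerset.filter fun J => J.card ≤ t ∧ Disjoint Q J with hP
    have h2 := hf.psd Q hQ.2 P.card (fun i => (P.equivFin.symm i : Finset (Sph d))) (fun _ => 1)
      (by
        intro i
        have h3 : ∀ J ∈ P, J ⊆ I ∧ J.card ≤ t ∧ Disjoint Q J := fun J hJ => by
          rw [hP, mem_filter, mem_powerset] at hJ
          exact hJ
        replace h3 := h3 _ (P.equivFin.symm i).2
        refine ⟨h3.2.1, h3.2.2, fun x hx y hy => hI x ?_ y ?_⟩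
        · exact union_subset hQ.1 h3.1 hx
        · exact union_subset hQ.1 h3.1 hy)
    simp only [one_mul] at h2
    have e1 : ∑ J ∈ P, ∑ J' ∈ P, F Q J J' = ∑ i : Fin P.card, ∑ j : Fin P.card,
        F Q (P.equivFin.symm i : Finset (Sph d)) (P.equivFin.symm j : Finset (Sph d)) := by
      rw [← sum_coe_sort P (fun J => ∑ J' ∈ P, F Q J J'),
        ← Equiv.sum_comp P.equivFin.symm (fun J : P => ∑ J' ∈ P, F Q J J')]
      refine sum_congr rfl fun i _ => ?_
      rw [← sum_coe_sort P (fun J' => F Q (P.equivFin.symm i : Finset (Sph d)) J'),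
        ← Equiv.sum_comp P.equivFin.symm
          (fun J' : P => F Q (P.equivFin.symm i : Finset (Sph d)) (J' : Finset (Sph d)))]
    rw [e1]
    exact h2
  have h2 : ∀ S ∈ I.powerset, opM k t F S ≤
      (if S.card = 0 then F ∅ ∅ ∅ else 0) - (if S.card = 1 then 1 else 0) := by
    intro S hS
    rcases S.eq_empty_or_nonempty with rfl | hSn
    · simp [opM]
    · have hc0 : S.card ≠ 0 := (card_pos.2 hSn).ne'
      rw [if_neg hc0, zero_sub]
      by_cases hc : S.card ≤ k + 2 * t
      · have := hf.le S hSn hc (fun x hx y hy =>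
          hI x (mem_powerset.1 hS hx) y (mem_powerset.1 hS hy))
        refine this.trans (le_of_eq ?_)
        split_ifs <;> norm_num
      · rw [if_neg (by omega), neg_zero]
        apply le_of_eq
        rw [opM_eq]
        refine sum_eq_zero fun Q _ => sum_eq_zero fun J _ => sum_eq_zero fun J' _ => if_neg ?_
        rintro ⟨h, -, h3, h4, h5⟩
        have h6 := card_union_le Q (J ∪ J')
        have h7 := card_union_le J J'
        rw [h] at h6
        omega
  have h3 := h1.trans (sum_le_sum h2)
  rw [sum_sub_distrib] at h3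
  have e1 : ∀ (m : ℕ) (c : ℝ), ∑ S ∈ I.powerset, (if S.card = m then c else 0) =
      (I.card.choose m : ℝ) * c := by
    intro m c
    rw [← sum_filter, sum_const, nsmul_eq_mul]
    congr 2
    rw [← card_powersetCard]
    congr 1
    ext S
    simp [mem_powersetCard]
  rw [e1, e1, Nat.choose_one_right, Nat.choose_zero_right] at h3
  push_cast at h3
  linarith

end Pool.Agent.Helper9.LP
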